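import Pool.Agent.Run7.h425.Growth

set_option autoImplicit false

namespace Pool.Agent.Results.MP_484b1d_nt.SquareRootLower

/-- `A` contains pairwise distinct `x₁, …, x₅` with `2x₁ + 2x₂ + 2x₃ = 3x₄ + 3x₅`. -/
def HasSolution (A : Finset ℕ) : Prop :=
  ∃ x : Fin 5 → ℕ, Function.Injective x ∧ (∀ i, x i ∈ A) ∧
    2 * x 0 + 2 * x 1 + 2 * x 2 = 3 * x 3 + 3 * x 4

/-- Every solution of the equation with entries in `A` has all five entries equal. -/
def OnlyConstant (A : Finset ℕ) : Prop :=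
  ∀ x : Fin 5 → ℕ, (∀ i, x i ∈ A) →
    2 * x 0 + 2 * x 1 + 2 * x 2 = 3 * x 3 + 3 * x 4 → ∀ i j, x i = x j

/-- The largest size of a subset of `{1, …, N}` without a solution in distinct integers. -/
noncomputable def R (N : ℕ) : ℕ :=
  sSup {k | ∃ A : Finset ℕ, A ⊆ Finset.Icc 1 N ∧ ¬ HasSolution A ∧ A.card = k}

/-- The largest size of a subset of `{1, …, N}` all of whose solutions are constant. -/
noncomputable def r (N : ℕ) : ℕ :=
  sSup {k | ∃ A : Finset ℕ, A ⊆ Finset.Icc 1 N ∧ OnlyConstant A ∧ A.card = k}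

theorem not_hasSolution (A : Finset ℕ) (h : OnlyConstant A) : ¬ HasSolution A := by
  rintro ⟨x, hx, hA, hsol⟩
  have h1 := hx (h x hA hsol 0 1)
  exact absurd h1 (by decide)

theorem bdd (N : ℕ) (P : Finset ℕ → Prop) :
    BddAbove {k | ∃ A : Finset ℕ, A ⊆ Finset.Icc 1 N ∧ P A ∧ A.card = k} := by
  refine ⟨N, ?_⟩
  rintro k ⟨A, hA, _, rfl⟩
  have := Finset.card_le_card hA
  simpa using this

theorem r_le_R (N : ℕ) : r N ≤ R N := by
  have hne : {k | ∃ A : Finset ℕ, A ⊆ Finset.Icc 1 N ∧ OnlyConstant A ∧ A.card = k}.Nonempty :=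
    ⟨0, ∅, by simp, fun x hx => absurd (hx 0) (by simp), by simp⟩
  apply csSup_le hne
  rintro k ⟨A, hA, hA2, rfl⟩
  exact le_csSup (bdd N _) ⟨A, hA, not_hasSolution A hA2, rfl⟩

theorem result : ∃ C : ℝ, ∀ N : ℕ, 1 ≤ N →
    Real.sqrt N * Real.exp (-(C * (Real.log N) ^ ((2 : ℝ) / 3))) ≤ (r N : ℝ) ∧ r N ≤ R N := by
  refine ⟨30, fun N hN => ⟨?_, r_le_R N⟩⟩
  obtain ⟨A, hA, hA2, hA3⟩ := Pool.Agent.Run7.h425.growth N hN
  refine hA3.trans ?_
  have hinj : Function.Injective (fun x : ℕ => x + 1) := fun x y h => by simpa using h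
  have h1 : (A.image (fun x => x + 1)).card ≤ r N := by
    refine le_csSup (bdd N _) ⟨A.image (fun x => x + 1), ?_, ?_, rfl⟩
    · intro x hx
      obtain ⟨y, hy, rfl⟩ := Finset.mem_image.1 hx
      have := Finset.mem_range.1 (hA hy)
      rw [Finset.mem_Icc]
      omega
    · intro x hx hsol
      have h2 : ∀ i, ∃ y ∈ A, y + 1 = x i := fun i => Finset.mem_image.1 (hx i)
      choose y hy hyx using h2
      have h3 : 2 * (y 0 + y 1 + y 2) = 3 * (y 3 + y 4) := by
        have e0 := hyx 0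
        have e1 := hyx 1
        have e2 := hyx 2
        have e3 := hyx 3
        have e4 := hyx 4
        omega
      obtain ⟨e0, e1, e2, e3⟩ := hA2 _ (hy 0) _ (hy 1) _ (hy 2) _ (hy 3) _ (hy 4) h3
      have h4 : ∀ i, x i = y 4 + 1 := by
        intro i
        rw [← hyx i]
        fin_cases i
        · simp [e0]
        · simp [e1]
        · simp [e2]
        · simp [e3]
        · simp
      intro i j
      rw [h4 i, h4 j]
  rw [Finset.card_image_of_injective _ hinj] at h1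
  exact_mod_cast h1

end Pool.Agent.Results.MP_484b1d_nt.SquareRootLower
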